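import Mathlib

open Set Cardinal Filter

universe u

namespace Pool.Agent.Results.MP_d56e90_lc.Holds

structure Big (κ : Cardinal.{u}) (K : Type u) [LinearOrder K] : Prop where
  wf : WellFoundedLT K
  bdd : ∀ s : Set K, #s ≤ κ → ∃ b, ∀ x ∈ s, x < b
  small : ∀ x : K, #(Iic x) ≤ κ

theorem exists_big {κ : Cardinal.{u}} (hκ : ℵ₀ ≤ κ) : Big κ (Order.succ κ).ord.ToType := by
  have hreg : (Order.succ κ).IsRegular := isRegular_succ hκ
  have hcof : Order.cof (Order.succ κ).ord.ToType = Order.succ κ := by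
    rw [Ordinal.cof_toType, hreg.cof_ord]
  refine ⟨inferInstance, fun s hs => ?_, fun x => ?_⟩
  · have : ¬ IsCofinal s := fun h => by
      have h1 := Order.cof_le h
      rw [hcof] at h1
      exact (Order.lt_succ κ).not_ge (h1.trans hs)
    simp only [IsCofinal, not_forall, not_exists, not_and, not_le] at this
    exact this
  · have := mk_Iic_lt x (by simp) (by simpa using hreg.aleph0_le)
    rw [mk_ord_toType] at this
    exact Order.lt_succ_iff.1 this

theorem Big.sub {κ : Cardinal.{u}} {K : Type u} [LinearOrder K] (h : Big κ K) {S : Set K}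
    (hS : ¬ #S ≤ κ) : Big κ S := by
  haveI := h.wf
  refine ⟨inferInstance, fun s hs => ?_, fun x => ?_⟩
  · obtain ⟨b, hb⟩ := h.bdd (Subtype.val '' s) (mk_image_le.trans hs)
    have : ¬ S ⊆ Iic b := fun h' => hS ((mk_le_mk_of_subset h').trans (h.small b))
    obtain ⟨y, hy, hyb⟩ := not_subset.1 this
    exact ⟨⟨y, hy⟩, fun x hx => (hb _ (mem_image_of_mem _ hx)).trans (not_le.1 hyb)⟩
  · exact (mk_le_of_injective (f := fun y : Iic x => (⟨y.1.1, y.2⟩ : Iic x.1))
      fun y z h => Subtype.ext (Subtype.ext (Subtype.mk.inj h))).trans (h.small x.1)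

theorem fib {κ : Cardinal.{u}} (hκ : ℵ₀ ≤ κ) {K ι : Type u} (hι : #ι ≤ κ) {T : Set K}
    (F : ι → Set K) (hT : ¬ #T ≤ κ) (h : T ⊆ ⋃ i, F i) : ∃ i, ¬ #(F i) ≤ κ := by
  by_contra hc
  push Not at hc
  exact hT ((mk_le_mk_of_subset h).trans ((mk_iUnion_le _).trans
    ((mul_le_mul' hι (ciSup_le' hc)).trans (mul_eq_self hκ).le)))

theorem core {κ : Cardinal.{u}} (hκ : ℵ₀ ≤ κ) {C : Type u} [Finite C] (U : Finset C) :
    ∀ (K : Type u) [LinearOrder K], Big κ K → ∀ f : K → K → C, (∀ α β, β < α → f α β ∈ U) →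
      ∃ α γ c, κ ≤ #{β | f α β = c ∧ f β γ = c} := by
  classical
  induction U using Finset.strongInduction with
  | H U ih =>
    intro K _ hK f hf
    haveI := hK.wf
    let V : K → Finset C := fun β => U.filter fun c => ∃ γ < β, f β γ = c
    by_cases h1 : ∃ U' ⊂ U, ¬ #{β | V β = U'} ≤ κ
    · obtain ⟨U', hU', hS⟩ := h1
      obtain ⟨α, γ, c, h⟩ := ih U' hU' _ (hK.sub hS) (fun α β => f α.1 β.1) fun α β h => by
        have h' : f α.1 β.1 ∈ V α.1 := Finset.mem_filter.2 ⟨hf _ _ h, β.1, h, rfl⟩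
        rwa [α.2] at h'
      exact ⟨α, γ, c, h.trans (mk_le_of_injective (f := fun y => ⟨y.1.1, y.2⟩)
        fun y z h => Subtype.ext (Subtype.ext (Subtype.mk.inj h)))⟩
    have h2 : #{β | V β ≠ U} ≤ κ := by
      by_contra h2
      obtain ⟨U', h3⟩ := fib hκ (ι := {U' : Finset C // U' ⊂ U})
        ((lt_aleph0_of_finite _).le.trans hκ) (fun U' => {β | V β = U'.1}) h2 fun β hβ =>
          mem_iUnion.2 ⟨⟨V β, Finset.ssubset_iff_subset_ne.2 ⟨Finset.filter_subset _ _, hβ⟩⟩, rfl⟩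
      exact h1 ⟨U'.1, U'.2, h3⟩
    obtain ⟨b, hb⟩ := hK.bdd _ h2
    have h3 : ∀ β c, ∃ γ, b < β → γ < β ∧ (c ∈ U → f β γ = c) := fun β c => by
      by_cases h : b < β ∧ c ∈ U
      · have : V β = U := by_contra fun h' => lt_asymm h.1 (hb β h')
        obtain ⟨γ, h4, h5⟩ := (Finset.mem_filter.1 (this ▸ h.2 : c ∈ V β)).2
        exact ⟨γ, fun _ => ⟨h4, fun _ => h5⟩⟩
      · exact ⟨b, fun h' => ⟨h', fun h'' => (h ⟨h', h''⟩).elim⟩⟩
    choose w hw using h3
    have h4 : ∃ δ, ¬ #{β | b < β ∧ ∀ c, w β c ≤ δ} ≤ κ := by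
      by_contra h4
      push Not at h4
      choose g hg using fun δ => hK.bdd (insert δ {β | b < β ∧ ∀ c, w β c ≤ δ})
        (mk_insert_le.trans ((add_le_add (h4 δ) (one_le_aleph0.trans hκ)).trans (add_eq_self hκ).le))
      let x : ℕ → K := fun n => g^[n] b
      have hx : ∀ n, x (n + 1) = g (x n) := fun n => Function.iterate_succ_apply' g n b
      have hm : StrictMono x := strictMono_nat_of_lt_succ fun n => by
        rw [hx]; exact hg _ _ (Or.inl rfl)
      obtain ⟨b', hb'⟩ := hK.bdd (range x)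
        ((le_aleph0_iff_set_countable.2 (countable_range x)).trans hκ)
      have hne : (upperBounds (range x)).Nonempty := ⟨b', fun y hy => (hb' y hy).le⟩
      have hl : IsLUB (range x) (wellFounded_lt.min _ hne) := ⟨wellFounded_lt.min_mem _ hne,
        fun y hy => not_lt.1 (wellFounded_lt.not_lt_min _ hy)⟩
      generalize wellFounded_lt.min _ hne = l at hl
      have h5 : b < l := (hm Nat.zero_lt_one).trans_le (hl.1 (mem_range_self 1))
      have h6 : ∀ c, ∃ n, w l c < x n := fun c => by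
        obtain ⟨_, ⟨n, rfl⟩, h⟩ := (lt_isLUB_iff hl).1 (hw l c h5).1
        exact ⟨n, h⟩
      choose n hn using h6
      obtain ⟨N, hN⟩ := (finite_range n).bddAbove
      have := hg (x N) l (Or.inr ⟨h5, fun c => (hn c).le.trans (hm.monotone (hN (mem_range_self c)))⟩)
      rw [← hx] at this
      exact this.not_ge (hl.1 (mem_range_self _))
    obtain ⟨δ, hδ⟩ := h4
    obtain ⟨W, hW⟩ := fib hκ (ι := C → Iic δ) (by
        rw [← power_def]
        exact (power_le_power_right (hK.small δ)).trans (pow_le hκ (lt_aleph0_of_finite C)))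
      (fun W => {β | b < β ∧ ∀ c, w β c = (W c).1}) hδ fun β hβ =>
        mem_iUnion.2 ⟨fun c => ⟨w β c, hβ.2 c⟩, hβ.1, fun _ => rfl⟩
    obtain ⟨T, hT, hTκ⟩ := le_mk_iff_exists_subset.1 (not_le.1 hW).le
    obtain ⟨α, hα⟩ := hK.bdd T hTκ.le
    obtain ⟨c, hc⟩ := infinite_pigeonhole_card (fun β : T => f α β.1) κ hTκ.ge hκ
      ((lt_aleph0_of_finite C).trans_le (Ordinal.aleph0_le_cof.2 (isSuccLimit_ord hκ)))
    refine ⟨α, W c, c, hc.trans (mk_le_of_injective (f := fun y => ⟨y.1.1, y.2, ?_⟩)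
      fun y z h => Subtype.ext (Subtype.ext (Subtype.mk.inj h)))⟩
    rw [← (hT y.1.2).2 c]
    exact (hw _ c (hT y.1.2).1).2 (y.2 ▸ hf _ _ (hα _ y.1.2))

theorem main {κ : Cardinal.{u}} {J : Type u} [Infinite J] (hJ : κ < #J) {C : Type u} [Finite C]
    (f : J → J → C) : ∃ α γ c, κ ≤ #{β | f α β = c ∧ f β γ = c} := by
  classical
  rcases lt_or_ge κ ℵ₀ with hκ | hκ
  · obtain ⟨n, rfl⟩ := lt_aleph0.1 hκ
    have key : ∀ g : J → C, ∃ c, {x | g x = c} ∈ hyperfilter J := fun g => by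
      obtain ⟨c, hc⟩ := (Ultrafilter.map g (hyperfilter J)).eq_pure_of_finite
      exact ⟨c, show {c} ∈ Ultrafilter.map g (hyperfilter J) by rw [hc]; simp⟩
    choose col hcol using fun β => key fun α => f α β
    obtain ⟨c, hc⟩ := key col
    obtain ⟨γ, hγ⟩ := Ultrafilter.nonempty_of_mem hc
    have h1 : ({β | col β = c} ∩ {β | f β γ = col γ}).Infinite := fun h =>
      h.notMem_hyperfilter (inter_mem hc (hcol γ))
    obtain ⟨T, hT, hn⟩ := h1.exists_subset_card_eq n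
    obtain ⟨α, hα⟩ := Ultrafilter.nonempty_of_mem
      ((biInter_finset_mem T).2 fun β _ => hcol β : (⋂ β ∈ T, {α | f α β = col β}) ∈ hyperfilter J)
    refine ⟨α, γ, c, le_trans ?_ (mk_le_mk_of_subset (s := (T : Set J)) fun β hβ =>
      ⟨(mem_iInter₂.1 hα β hβ).trans (hT hβ).1, (hT hβ).2.trans hγ⟩)⟩
    simp [hn]
  · haveI := Fintype.ofFinite C
    obtain ⟨e⟩ : #(Order.succ κ).ord.ToType ≤ #J := by
      rw [mk_ord_toType]; exact Order.succ_le_of_lt hJ
    obtain ⟨α, γ, c, h⟩ := core hκ Finset.univ _ (exists_big hκ) (fun α β => f (e α) (e β))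
      fun _ _ _ => Finset.mem_univ _
    exact ⟨e α, e γ, c, h.trans (mk_le_of_injective (f := fun y => ⟨e y.1, y.2⟩)
      fun y z h => Subtype.ext (e.injective (Subtype.mk.inj h)))⟩

theorem result : ∀ (G : Type u) [AddCommGroup G] [Infinite G] (κ : Cardinal.{u}), κ < #G →
    ∀ (r : ℕ) (χ : G → Fin r), ∃ A : Set G, κ ≤ #A ∧
      (∃ g : G, A = (fun x => g + -x + g) '' A) ∧ ∃ c, ∀ x ∈ A, χ x = c := by
  intro G _ _ κ hκ r χ
  let d : G →+ G := AddMonoidHom.id G + AddMonoidHom.id G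
  have hd : ∀ x, d x = x + x := fun _ => rfl
  have hmul : #G = #d.range * #d.ker := by
    rw [← mk_congr (QuotientAddGroup.quotientKerEquivRange d).toEquiv, mul_def]
    exact mk_congr AddSubgroup.addGroupEquivQuotientProdAddSubgroup
  by_cases h1 : κ < #d.range ∧ ℵ₀ ≤ #d.range
  · haveI := aleph0_le_mk_iff.1 h1.2
    obtain ⟨⟨_, a, rfl⟩, ⟨_, g, rfl⟩, c, h⟩ := main h1.1 fun x y => ULift.up.{u} (χ (x.1 - y.1))
    refine ⟨{x | χ x = c.down ∧ χ (d a - d g - x) = c.down}, h.trans (mk_le_of_injective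
      (f := fun y => ⟨d a - y.1.1, congrArg ULift.down y.2.1, ?_⟩) fun y z h => ?_),
      ⟨a - g, ?_⟩, c.down, fun x hx => hx.1⟩
    · rw [show d a - d g - (d a - y.1.1) = y.1.1 - d g by abel]
      exact congrArg ULift.down y.2.2
    · exact Subtype.ext (Subtype.ext (sub_right_injective (Subtype.mk.inj h)))
    · have e : ∀ x, a - g + -x + (a - g) = d a - d g - x := fun x => by rw [hd, hd]; abel
      ext x
      simp only [e]
      constructor
      · rintro ⟨h1, h2⟩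
        exact ⟨d a - d g - x, ⟨h2, by rwa [sub_sub_cancel]⟩, sub_sub_cancel _ _⟩
      · rintro ⟨y, ⟨h1, h2⟩, rfl⟩
        exact ⟨h2, by rwa [sub_sub_cancel]⟩
  have h2 : κ < #d.ker ∧ ℵ₀ ≤ #d.ker := by
    by_contra h2
    rw [not_and_or, not_lt, not_le] at h1 h2
    rcases lt_or_ge κ ℵ₀ with h | h
    · exact (aleph0_le_mk G).not_gt (hmul ▸ mul_lt_aleph0 (h1.elim (·.trans_lt h) id)
        (h2.elim (·.trans_lt h) id))
    · exact hκ.not_ge (hmul ▸ (mul_le_mul' (h1.elim id (·.le.trans h))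
        (h2.elim id (·.le.trans h))).trans (mul_eq_self h).le)
  haveI := aleph0_le_mk_iff.1 h2.2
  obtain ⟨a, g, c, h⟩ := main h2.1 fun _ y => ULift.up.{u} (χ y.1)
  refine ⟨{x | χ x = c.down ∧ x + x = 0}, h.trans (mk_le_of_injective
    (f := fun y => ⟨y.1.1, congrArg ULift.down y.2.1, y.1.2⟩) fun y z h =>
      Subtype.ext (Subtype.ext (Subtype.mk.inj h))), ⟨0, ?_⟩, c.down, fun x hx => hx.1⟩
  ext x
  simp only [zero_add, add_zero]
  constructor
  · intro hx
    exact ⟨x, hx, neg_eq_of_add_eq_zero_left hx.2⟩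
  · rintro ⟨y, hy, rfl⟩
    simpa only [neg_eq_of_add_eq_zero_left hy.2] using hy

end Pool.Agent.Results.MP_d56e90_lc.Holds
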